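import Pool.Agent.H91.FG.Div

set_option autoImplicit false

open MvPolynomial

namespace H91.FG

open H95.FG

theorem t_NUL : S_NUL := by
  intro n A hn h
  set S : MvPolynomial (Fin n ⊕ Fin n) ℂ := ∑ k : Fin n, X (Sum.inl k) * X (Sum.inr k) with hS
  have hp : Prime S := prm hn
  have : (Ideal.span {S}).IsPrime := (Ideal.span_singleton_prime hp.ne_zero).2 hp
  have h1 : A ∈ vanishingIdeal ℂ (zeroLocus ℂ (Ideal.span {S})) := by
    rw [mem_vanishingIdeal_iff]
    intro x hx
    rw [zeroLocus_span] at hx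
    have h2 := hx S rfl
    rw [hS, map_sum] at h2
    simp only [map_mul, aeval_X] at h2
    have h3 := h (fun k => x (Sum.inl k)) (fun k => x (Sum.inr k)) h2
    unfold AA at h3
    have e : (Sum.elim (fun k => x (Sum.inl k)) (fun k => x (Sum.inr k))) = x := by
      ext k
      rcases k with k | k <;> rfl
    rw [e] at h3
    exact h3
  rw [IsPrime.vanishingIdeal_zeroLocus, Ideal.mem_span_singleton] at h1
  exact h1

/-- the kernel and the quotient -/
theorem KK_eq {n m : ℕ} {p : Fin m → MvPolynomial (Fin n) ℂ}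
    {A : MvPolynomial (Fin n ⊕ Fin n) ℂ} (h : Sys n m p A) (z Y : Fin n → ℂ) :
    KK p z Y = (∑ k, z k * Y k) * AA A z Y := by
  have h1 := congrArg (eval (Sum.elim z Y)) h.2
  rw [map_sum, map_mul, map_sum] at h1
  simp only [map_mul, eval_rename, Sum.elim_comp_inl, Sum.elim_comp_inr, eval_X, Sum.elim_inl,
    Sum.elim_inr] at h1
  exact h1

/-- homogeneous polynomials -/
theorem eval_smul_of_hom {n d : ℕ} {f : MvPolynomial (Fin n) ℂ} (hf : f.IsHomogeneous d)
    (c : ℂ) (z : Fin n → ℂ) : eval (c • z) f = c ^ d * eval z f := by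
  rw [eval_eq', eval_eq', Finset.mul_sum]
  refine Finset.sum_congr rfl fun x hx => ?_
  have h1 := hf (mem_support_iff.1 hx)
  rw [Finsupp.weight_apply, Finsupp.sum_fintype _ _ (by simp)] at h1
  simp only [Pi.one_apply, smul_eq_mul, mul_one] at h1
  simp only [Pi.smul_apply, smul_eq_mul, mul_pow, Finset.prod_mul_distrib]
  rw [Finset.prod_pow_eq_pow_sum, h1]
  ring

theorem KK_smul_left {n m d : ℕ} {p : Fin m → MvPolynomial (Fin n) ℂ} (hp : Hom p d)
    (c : ℂ) (z Y : Fin n → ℂ) : KK p (c • z) Y = c ^ d * KK p z Y := by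
  unfold KK
  rw [Finset.mul_sum]
  refine Finset.sum_congr rfl fun j _ => ?_
  rw [eval_smul_of_hom (hp j)]
  ring

theorem KK_smul_right {n m d : ℕ} {p : Fin m → MvPolynomial (Fin n) ℂ} (hp : Hom p d)
    (c : ℂ) (z Y : Fin n → ℂ) : KK p z (c • Y) = c ^ d * KK p z Y := by
  unfold KK
  rw [Finset.mul_sum]
  refine Finset.sum_congr rfl fun j _ => ?_
  have h1 : (cj (p j)).IsHomogeneous d := (hp j).map _
  rw [eval_smul_of_hom h1]
  ring

theorem continuous_AA {n : ℕ} (A : MvPolynomial (Fin n ⊕ Fin n) ℂ) {f g : ℂ → (Fin n → ℂ)}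
    (hf : Continuous f) (hg : Continuous g) : Continuous fun c => AA A (f c) (g c) := by
  unfold AA
  refine (continuous_eval A).comp ?_
  refine continuous_pi fun k => ?_
  rcases k with k | k
  · exact (continuous_apply k).comp hf
  · exact (continuous_apply k).comp hg

theorem AA_sub {n : ℕ} (A : MvPolynomial (Fin n ⊕ Fin n) ℂ)
    (f : Fin n ⊕ Fin n → MvPolynomial (Fin n ⊕ Fin n) ℂ) (x : Fin n ⊕ Fin n → ℂ) :
    eval x (bind₁ f A) = eval (fun i => eval x (f i)) A := by
  exact aeval_bind₁ (R := ℂ) x f A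

/-- If `(z · Y) (AA A (a z) (b Y) - c AA A z Y) = 0` for all `z`, `Y`, then the second factor
is zero. -/
theorem cancel {n : ℕ} (hn : 1 ≤ n) (A : MvPolynomial (Fin n ⊕ Fin n) ℂ) (a b c : ℂ)
    (h : ∀ z Y : Fin n → ℂ, (∑ k, z k * Y k) * (AA A (a • z) (b • Y) - c * AA A z Y) = 0)
    (z Y : Fin n → ℂ) : AA A (a • z) (b • Y) = c * AA A z Y := by
  set B : MvPolynomial (Fin n ⊕ Fin n) ℂ :=
    bind₁ (Sum.elim (fun k => C a * X (Sum.inl k)) (fun k => C b * X (Sum.inr k))) A - C c * A
    with hB
  have hev : ∀ x : Fin n ⊕ Fin n → ℂ, eval x B =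
      AA A (a • fun k => x (Sum.inl k)) (b • fun k => x (Sum.inr k)) -
        c * AA A (fun k => x (Sum.inl k)) (fun k => x (Sum.inr k)) := by
    intro x
    rw [hB, map_sub, AA_sub, map_mul, eval_C]
    unfold AA
    have e1 : (fun i => eval x (Sum.elim (fun k => C a * X (Sum.inl k))
        (fun k => C b * X (Sum.inr k)) i)) =
        Sum.elim (a • fun k => x (Sum.inl k)) (b • fun k => x (Sum.inr k)) := by
      funext k
      rcases k with k | k <;> simp
    have e2 : x = Sum.elim (fun k => x (Sum.inl k)) (fun k => x (Sum.inr k)) := by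
      funext k
      rcases k with k | k <;> rfl
    rw [e1, ← e2]
  have hS : (∑ k : Fin n, X (Sum.inl k) * X (Sum.inr k) : MvPolynomial (Fin n ⊕ Fin n) ℂ) ≠ 0 := by
    intro h0
    have h1 := congrArg (eval (Sum.elim (Pi.single ⟨0, hn⟩ 1) (Pi.single ⟨0, hn⟩ 1))) h0
    rw [map_sum] at h1
    simp only [map_mul, eval_X, Sum.elim_inl, Sum.elim_inr, map_zero] at h1
    rw [Finset.sum_eq_single (⟨0, hn⟩ : Fin n)] at h1
    · simp at h1
    · intro k _ hk
      simp [hk]
    · simp
  have h1 : (∑ k : Fin n, X (Sum.inl k) * X (Sum.inr k) : MvPolynomial (Fin n ⊕ Fin n) ℂ) * B =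
      0 := by
    apply MvPolynomial.funext
    intro x
    rw [map_mul, hev, map_sum, map_zero]
    simp only [map_mul, eval_X]
    exact h _ _
  have h2 : B = 0 := by
    rcases mul_eq_zero.1 h1 with h3 | h3
    · exact absurd h3 hS
    · exact h3
  have h3 := hev (Sum.elim z Y)
  rw [h2, map_zero] at h3
  simp only [Sum.elim_inl, Sum.elim_inr] at h3
  exact (sub_eq_zero.1 h3.symm)

theorem t_HOMA : S_HOMA := by
  intro n m d p A hn hS hp c z Y
  have key : ∀ c : ℂ, c ≠ 0 → AA A (c • z) Y = c ^ d * AA A z Y ∧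
      AA A z (c • Y) = c ^ d * AA A z Y := by
    intro c hc
    constructor
    · have h := cancel hn A c 1 (c ^ d) (fun z Y => by
        rw [one_smul]
        have h1 := KK_smul_left hp c z Y
        rw [KK_eq hS, KK_eq hS] at h1
        have h2 : ∑ k, (c • z) k * Y k = c * ∑ k, z k * Y k := by
          rw [Finset.mul_sum]
          refine Finset.sum_congr rfl fun k _ => ?_
          simp only [Pi.smul_apply, smul_eq_mul]
          ring
        rw [h2] at h1
        have h3 : c * ((∑ k, z k * Y k) * (AA A (c • z) Y - c ^ d * AA A z Y)) = 0 := by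
          rw [pow_succ] at h1
          linear_combination h1
        exact (mul_eq_zero.1 h3).resolve_left hc) z Y
      rwa [one_smul] at h
    · have h := cancel hn A 1 c (c ^ d) (fun z Y => by
        rw [one_smul]
        have h1 := KK_smul_right hp c z Y
        rw [KK_eq hS, KK_eq hS] at h1
        have h2 : ∑ k, z k * (c • Y) k = c * ∑ k, z k * Y k := by
          rw [Finset.mul_sum]
          refine Finset.sum_congr rfl fun k _ => ?_
          simp only [Pi.smul_apply, smul_eq_mul]
          ring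
        rw [h2] at h1
        have h3 : c * ((∑ k, z k * Y k) * (AA A z (c • Y) - c ^ d * AA A z Y)) = 0 := by
          rw [pow_succ] at h1
          linear_combination h1
        exact (mul_eq_zero.1 h3).resolve_left hc) z Y
      rwa [one_smul] at h
  have hd : Dense ({0}ᶜ : Set ℂ) := dense_compl_singleton 0
  constructor
  · have h1 : (fun c : ℂ => AA A (c • z) Y) = fun c => c ^ d * AA A z Y :=
      Continuous.ext_on hd (continuous_AA A (continuous_id.smul continuous_const) continuous_const)
        (by fun_prop) (fun c hc => (key c hc).1)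
    exact congrFun h1 c
  · have h1 : (fun c : ℂ => AA A z (c • Y)) = fun c => c ^ d * AA A z Y :=
      Continuous.ext_on hd (continuous_AA A continuous_const (continuous_id.smul continuous_const))
        (by fun_prop) (fun c hc => (key c hc).2)
    exact congrFun h1 c

end H91.FG
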