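import Pool.Agent.H95.FG.Defs

set_option autoImplicit false

open MvPolynomial

namespace H91.FG

open H95.FG

/-- the quadric is irreducible -/
theorem irr {n : ℕ} (hn : 2 ≤ n) :
    Irreducible (∑ k : Fin n, X (Sum.inl k) * X (Sum.inr k) : MvPolynomial (Fin n ⊕ Fin n) ℂ) := by
  have h := irreducible_sumSMulXSMulY (n := Fin n) (R := ℂ)
    (Finsupp.equivFunOnFinite.symm (fun _ => (1 : ℂ)))
    ⟨⟨0, by omega⟩, by simp, ⟨1, by omega⟩, by simp, by simp [Fin.ext_iff]⟩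
    (fun r hr => isUnit_of_dvd_one (hr ⟨0, by omega⟩))
  have e : sumSMulXSMulY (Finsupp.equivFunOnFinite.symm (fun _ : Fin n => (1 : ℂ))) =
      (∑ k : Fin n, X (Sum.inl k) * X (Sum.inr k) : MvPolynomial (Fin n ⊕ Fin n) ℂ) := by
    unfold sumSMulXSMulY
    rw [Finsupp.linearCombination_apply, Finsupp.sum_fintype]
    · simp
    · simp
  rwa [e] at h

theorem prm {n : ℕ} (hn : 2 ≤ n) :
    Prime (∑ k : Fin n, X (Sum.inl k) * X (Sum.inr k) : MvPolynomial (Fin n ⊕ Fin n) ℂ) :=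
  (irr hn).prime

/-- the quadric does not divide a nonzero polynomial in `z` -/
theorem ndvd_inl {n : ℕ} {φ : MvPolynomial (Fin n) ℂ} (hφ : φ ≠ 0) :
    ¬ (∑ k : Fin n, X (Sum.inl k) * X (Sum.inr k) : MvPolynomial (Fin n ⊕ Fin n) ℂ) ∣
      rename Sum.inl φ := by
  rintro ⟨Q, hQ⟩
  have h := congrArg (aeval (Sum.elim (fun k => (X k : MvPolynomial (Fin n) ℂ))
    (fun _ => 0))) hQ
  rw [aeval_rename, map_mul, map_sum] at h
  simp only [map_mul, aeval_X, Sum.elim_inl, Sum.elim_inr, mul_zero, Finset.sum_const_zero,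
    zero_mul] at h
  apply hφ
  have e : (Sum.elim (fun k => (X k : MvPolynomial (Fin n) ℂ)) (fun _ : Fin n => 0)) ∘ Sum.inl =
      X := by
    ext k
    simp
  rw [e, aeval_X_left, AlgHom.id_apply] at h
  exact h

/-- the quadric does not divide a nonzero polynomial in `Y` -/
theorem ndvd_inr {n : ℕ} {φ : MvPolynomial (Fin n) ℂ} (hφ : φ ≠ 0) :
    ¬ (∑ k : Fin n, X (Sum.inl k) * X (Sum.inr k) : MvPolynomial (Fin n ⊕ Fin n) ℂ) ∣
      rename Sum.inr φ := by
  rintro ⟨Q, hQ⟩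
  have h := congrArg (aeval (Sum.elim (fun _ => 0)
    (fun k => (X k : MvPolynomial (Fin n) ℂ)))) hQ
  rw [aeval_rename, map_mul, map_sum] at h
  simp only [map_mul, aeval_X, Sum.elim_inl, Sum.elim_inr, zero_mul, Finset.sum_const_zero] at h
  apply hφ
  have e : (Sum.elim (fun _ : Fin n => 0) (fun k => (X k : MvPolynomial (Fin n) ℂ))) ∘ Sum.inr =
      X := by
    ext k
    simp
  rw [e, aeval_X_left, AlgHom.id_apply] at h
  exact h

theorem cj_ne_zero {n : ℕ} {φ : MvPolynomial (Fin n) ℂ} (hφ : φ ≠ 0) : cj φ ≠ 0 := by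
  intro h
  apply hφ
  exact map_injective _ (starRingEnd ℂ).injective (by rw [map_zero]; exact h)

theorem t_DIV : S_DIV := by
  intro n m h φ A hn hφ hS
  obtain ⟨hli, hker⟩ := hS
  have h1 : LinearIndependent ℂ h := by
    have e : (fun j => φ * h j) = (LinearMap.mulLeft ℂ φ) ∘ h := rfl
    rw [e] at hli
    exact hli.of_comp _
  have h2 : rename Sum.inl φ * (rename Sum.inr (cj φ) *
      ∑ j, rename Sum.inl (h j) * rename Sum.inr (cj (h j))) =
      (∑ k : Fin n, X (Sum.inl k) * X (Sum.inr k)) * A := by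
    rw [← hker, Finset.mul_sum, Finset.mul_sum]
    refine Finset.sum_congr rfl fun j _ => ?_
    have e : cj (φ * h j) = cj φ * cj (h j) := map_mul _ _ _
    rw [e, map_mul, map_mul]
    ring
  have hp := prm hn
  have h3 : (∑ k : Fin n, X (Sum.inl k) * X (Sum.inr k) : MvPolynomial (Fin n ⊕ Fin n) ℂ) ∣
      ∑ j, rename Sum.inl (h j) * rename Sum.inr (cj (h j)) := by
    rcases hp.dvd_or_dvd (Dvd.intro _ h2.symm) with h4 | h4
    · exact absurd h4 (ndvd_inl hφ)
    · rcases hp.dvd_or_dvd h4 with h5 | h5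
      · exact absurd h5 (ndvd_inr (cj_ne_zero hφ))
      · exact h5
  obtain ⟨B, hB⟩ := h3
  exact ⟨B, h1, hB⟩

end H91.FG
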